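import Pool.Agent.Lib.MP_d26cd8_an.Final.Spec
import Pool.Agent.Lib.MP_d26cd8_an.PET.Main
import Pool.Agent.Lib.MP_d26cd8_an.HK.Sq
import Pool.Agent.Lib.MP_d26cd8_an.HK.Dist
import Pool.Agent.Lib.MP_d26cd8_an.HK.Susp

section
/-!
# MP_d26cd8_an, final assembly: inequalities for the polynomial averages
-/
set_option autoImplicit false

open MeasureTheory ProbabilityTheory Filter Topology Polynomial
open scoped ComplexConjugate ENNReal

namespace MPd26.HK.PavgM

open MPd26.PET (U MP)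

lemma prod_diff {ι : Type} (s : Finset ι) (a b : ι → ℂ) (ha : ∀ i ∈ s, ‖a i‖ ≤ 1)
    (hb : ∀ i ∈ s, ‖b i‖ ≤ 1) :
    ‖∏ i ∈ s, a i - ∏ i ∈ s, b i‖ ≤ ∑ i ∈ s, ‖a i - b i‖ := by
  classical
  induction s using Finset.induction_on with
  | empty => simp
  | insert k s hk ih =>
    rw [Finset.prod_insert hk, Finset.prod_insert hk, Finset.sum_insert hk]
    have h1 : ‖∏ i ∈ s, a i‖ ≤ 1 := by
      rw [norm_prod]
      exact Finset.prod_le_one (fun i _ => norm_nonneg _)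
        (fun i hi => ha i (Finset.mem_insert_of_mem hi))
    have h2 := ih (fun i hi => ha i (Finset.mem_insert_of_mem hi))
      (fun i hi => hb i (Finset.mem_insert_of_mem hi))
    have e : a k * ∏ i ∈ s, a i - b k * ∏ i ∈ s, b i
        = (a k - b k) * ∏ i ∈ s, a i + b k * (∏ i ∈ s, a i - ∏ i ∈ s, b i) := by ring
    rw [e]
    refine (norm_add_le _ _).trans (add_le_add ?_ ?_)
    · rw [norm_mul]
      exact mul_le_of_le_one_right (norm_nonneg _) h1
    · rw [norm_mul]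
      exact (mul_le_of_le_one_left (norm_nonneg _) (hb k (Finset.mem_insert_self _ _))).trans h2

variable {α : Type} [MeasurableSpace α] {μ : Measure α} {T : Equiv.Perm α} {ℓ : ℕ}
  {p : Fin ℓ → ℤ[X]}

lemma pavg_U (hT : MP μ T) {g : Fin ℓ → α → ℂ} (hg : ∀ i, U (g i)) (N : ℕ) :
    U (pavg T p g N) := by
  refine ⟨?_, fun x => MPd26.PET.norm_avg_le fun n => ?_⟩
  · exact measurable_const.mul (Finset.measurable_sum _ fun n _ =>
      Finset.measurable_prod _ fun i _ => (hg i).1.comp (hT.zpow _).m)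
  · exact (U.prod Finset.univ fun i _ => (hg i).comp (hT.zpow ((p i).eval (n : ℤ))).m).2 x

lemma U.bdd {g : α → ℂ} (hg : U g) : Bdd g := ⟨hg.1, 1, hg.2⟩

lemma avg_sq_le (N : ℕ) (c : ℕ → ℝ) :
    (((N : ℝ))⁻¹ * ∑ n ∈ Finset.range N, c n) ^ 2
      ≤ ((N : ℝ))⁻¹ * ∑ n ∈ Finset.range N, c n ^ 2 := by
  rcases Nat.eq_zero_or_pos N with h | h
  · subst h; simp
  · have hN : (0 : ℝ) < N := by exact_mod_cast h
    have h1 := sq_sum_le_card_mul_sum_sq (s := Finset.range N) (f := c)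
    rw [Finset.card_range] at h1
    rw [mul_pow]
    calc ((N : ℝ)⁻¹) ^ 2 * (∑ n ∈ Finset.range N, c n) ^ 2
        ≤ ((N : ℝ)⁻¹) ^ 2 * (N * ∑ n ∈ Finset.range N, c n ^ 2) := by gcongr
      _ = _ := by field_simp

lemma integral_mp (hT : MP μ T) (F : α → ℝ) : ∫ x, F (T x) ∂μ = ∫ x, F x ∂μ :=
  MeasurePreserving.integral_comp (f := hT.equiv) hT.mp hT.equiv.measurableEmbedding F

lemma integrable_sq [IsFiniteMeasure μ] {g : α → ℂ} (hg : Bdd g) :
    Integrable (fun x => ‖g x‖ ^ 2) μ := by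
  obtain ⟨hm, C, hC⟩ := hg
  refine Integrable.of_bound (hm.norm.pow_const 2).aestronglyMeasurable (C ^ 2)
    (Eventually.of_forall fun x => ?_)
  rw [Real.norm_eq_abs, abs_of_nonneg (by positivity)]
  exact pow_le_pow_left₀ (norm_nonneg _) (hC x) 2

/-- The averages depend continuously on the functions. -/
lemma pavg_dist [IsProbabilityMeasure μ] (hT : MP μ T) {g g' : Fin ℓ → α → ℂ}
    (hg : ∀ i, U (g i)) (hg' : ∀ i, U (g' i)) (N : ℕ) :
    ∫ x, ‖pavg T p g N x - pavg T p g' N x‖ ^ 2 ∂μ ≤ ℓ * ∑ i, dist2 μ (g i) (g' i) := by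
  have hpt : ∀ x, ‖pavg T p g N x - pavg T p g' N x‖ ^ 2 ≤
      ((N : ℝ))⁻¹ * ∑ n ∈ Finset.range N, (ℓ : ℝ) * ∑ i,
        ‖g i ((T ^ ((p i).eval (n : ℤ))) x) - g' i ((T ^ ((p i).eval (n : ℤ))) x)‖ ^ 2 := by
    intro x
    have h1 : ‖pavg T p g N x - pavg T p g' N x‖ ≤ ((N : ℝ))⁻¹ * ∑ n ∈ Finset.range N, ∑ i,
        ‖g i ((T ^ ((p i).eval (n : ℤ))) x) - g' i ((T ^ ((p i).eval (n : ℤ))) x)‖ := by
      unfold pavg
      rw [← mul_sub, ← Finset.sum_sub_distrib, norm_mul, norm_inv, Complex.norm_natCast]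
      refine mul_le_mul_of_nonneg_left ((norm_sum_le _ _).trans (Finset.sum_le_sum fun n _ =>
        prod_diff _ _ _ (fun i _ => (hg i).2 _) (fun i _ => (hg' i).2 _))) (by positivity)
    refine (pow_le_pow_left₀ (norm_nonneg _) h1 2).trans ((avg_sq_le _ _).trans ?_)
    refine mul_le_mul_of_nonneg_left (Finset.sum_le_sum fun n _ => ?_) (by positivity)
    have := sq_sum_le_card_mul_sum_sq (s := (Finset.univ : Finset (Fin ℓ)))
      (f := fun i => ‖g i ((T ^ ((p i).eval (n : ℤ))) x) - g' i ((T ^ ((p i).eval (n : ℤ))) x)‖)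
    rwa [Finset.card_fin] at this
  have hb : ∀ i, Bdd (fun x => g i x - g' i x) := fun i => (U.bdd (hg i)).sub (U.bdd (hg' i))
  have hint : ∀ (n : ℕ) (i : Fin ℓ), Integrable (fun x =>
      ‖g i ((T ^ ((p i).eval (n : ℤ))) x) - g' i ((T ^ ((p i).eval (n : ℤ))) x)‖ ^ 2) μ :=
    fun n i => integrable_sq ((hb i).comp (hT.zpow ((p i).eval (n : ℤ))).m)
  have hle : ∫ x, ‖pavg T p g N x - pavg T p g' N x‖ ^ 2 ∂μ ≤
      ∫ x, ((N : ℝ))⁻¹ * ∑ n ∈ Finset.range N, (ℓ : ℝ) * ∑ i,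
        ‖g i ((T ^ ((p i).eval (n : ℤ))) x) - g' i ((T ^ ((p i).eval (n : ℤ))) x)‖ ^ 2 ∂μ := by
    refine integral_mono ?_ ?_ hpt
    · exact integrable_sq ((U.bdd (pavg_U hT hg N)).sub (U.bdd (pavg_U hT hg' N)))
    · exact (integrable_finsetSum _ fun n _ =>
        (integrable_finsetSum _ fun i _ => hint n i).const_mul _).const_mul _
  have hmid : ∫ x, ((N : ℝ))⁻¹ * ∑ n ∈ Finset.range N, (ℓ : ℝ) * ∑ i,
        ‖g i ((T ^ ((p i).eval (n : ℤ))) x) - g' i ((T ^ ((p i).eval (n : ℤ))) x)‖ ^ 2 ∂μ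
      = ((N : ℝ))⁻¹ * ∑ n ∈ Finset.range N, (ℓ : ℝ) * ∑ i, dist2 μ (g i) (g' i) := by
    rw [integral_const_mul, integral_finsetSum _ fun n _ =>
      ((integrable_finsetSum _ fun i _ => hint n i).const_mul _)]
    congr 1
    refine Finset.sum_congr rfl fun n _ => ?_
    rw [integral_const_mul, integral_finsetSum _ fun i _ => hint n i]
    congr 1
    refine Finset.sum_congr rfl fun i _ => ?_
    exact integral_mp (hT.zpow _) (fun y => ‖g i y - g' i y‖ ^ 2)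
  refine hle.trans ?_
  rw [hmid]
  · rcases Nat.eq_zero_or_pos N with h | h
    · subst h
      simp only [Finset.range_zero, Finset.sum_empty, mul_zero]
      refine mul_nonneg (by positivity) (Finset.sum_nonneg fun i _ => ?_)
      exact integral_nonneg fun x => by positivity
    · have hN : (N : ℝ) ≠ 0 := by exact_mod_cast h.ne'
      rw [Finset.sum_const, Finset.card_range, nsmul_eq_mul, ← mul_assoc, inv_mul_cancel₀ hN,
        one_mul]

/-- Telescoping. -/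
lemma pavg_tel (F E : Fin ℓ → α → ℂ) (N : ℕ) (x : α) :
    pavg T p F N x - pavg T p E N x = ∑ i, pavg T p
      (fun k => if k = i then (fun y => F i y - E i y) else if k < i then E k else F k) N x := by
  unfold pavg
  rw [← mul_sub, ← Finset.mul_sum, Finset.sum_comm, ← Finset.sum_sub_distrib]
  congr 1
  refine Finset.sum_congr rfl fun n _ => ?_
  have h := Finset.prod_add_ordered (Finset.univ : Finset (Fin ℓ))
    (fun i => F i ((T ^ ((p i).eval (n : ℤ))) x))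
    (fun i => -(F i ((T ^ ((p i).eval (n : ℤ))) x) - E i ((T ^ ((p i).eval (n : ℤ))) x)))
  have e : ∀ i, F i ((T ^ ((p i).eval (n : ℤ))) x) +
      -(F i ((T ^ ((p i).eval (n : ℤ))) x) - E i ((T ^ ((p i).eval (n : ℤ))) x))
      = E i ((T ^ ((p i).eval (n : ℤ))) x) := fun i => by ring
  simp only [e] at h
  rw [h, sub_add_cancel_left, ← Finset.sum_neg_distrib]
  refine Finset.sum_congr rfl fun i _ => ?_
  have hs : ∀ c : Fin ℓ → ℂ, ∏ k, c k = ∏ k ∈ insert i
      ((Finset.univ.filter fun j => j < i) ∪ (Finset.univ.filter fun j => i < j)), c k := by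
    intro c
    congr 1
    ext j
    simp only [Finset.mem_univ, Finset.mem_insert, Finset.mem_union, Finset.mem_filter,
      true_and, true_iff]
    rcases lt_trichotomy j i with h | h | h
    · exact Or.inr (Or.inl h)
    · exact Or.inl h
    · exact Or.inr (Or.inr h)
  have hprod : ∏ k, (if k = i then (fun y => F i y - E i y) else if k < i then E k else F k)
      ((T ^ ((p k).eval (n : ℤ))) x) = (F i ((T ^ ((p i).eval (n : ℤ))) x) -
        E i ((T ^ ((p i).eval (n : ℤ))) x)) *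
        ((∏ j ∈ Finset.univ.filter (fun j => j < i), E j ((T ^ ((p j).eval (n : ℤ))) x)) *
        ∏ j ∈ Finset.univ.filter (fun j => i < j), F j ((T ^ ((p j).eval (n : ℤ))) x)) := by
    rw [hs (fun k => (if k = i then (fun y => F i y - E i y) else if k < i then E k else F k)
      ((T ^ ((p k).eval (n : ℤ))) x)), Finset.prod_insert (by simp), Finset.prod_union (by
      rw [Finset.disjoint_left]
      intro j h1 h2
      simp only [Finset.mem_filter, Finset.mem_univ, true_and] at h1 h2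
      exact absurd h1 (not_lt.2 h2.le))]
    rw [if_pos rfl]
    congr 2
    · refine Finset.prod_congr rfl fun j hj => ?_
      simp only [Finset.mem_filter, Finset.mem_univ, true_and] at hj
      rw [if_neg hj.ne, if_pos hj]
    · refine Finset.prod_congr rfl fun j hj => ?_
      simp only [Finset.mem_filter, Finset.mem_univ, true_and] at hj
      rw [if_neg hj.ne', if_neg (not_lt.2 hj.le)]
  rw [hprod]
  ring

lemma norm_sq_sum_le (s : Finset (Fin ℓ)) (a : Fin ℓ → ℂ) (b : ℂ) :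
    ‖b + ∑ i ∈ s, a i‖ ^ 2 ≤ (ℓ + 1) * (‖b‖ ^ 2 + ∑ i ∈ s, ‖a i‖ ^ 2) := by
  have h1 : ‖b + ∑ i ∈ s, a i‖ ≤ ‖b‖ + ∑ i ∈ s, ‖a i‖ :=
    (norm_add_le _ _).trans (add_le_add le_rfl (norm_sum_le _ _))
  have h2 : (∑ i ∈ s, ‖a i‖) ^ 2 ≤ ℓ * ∑ i ∈ s, ‖a i‖ ^ 2 := by
    refine (sq_sum_le_card_mul_sum_sq (s := s) (f := fun i => ‖a i‖)).trans ?_
    have : (s.card : ℝ) ≤ ℓ := by
      have := Finset.card_le_univ s
      rw [Fintype.card_fin] at this
      exact_mod_cast this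
    gcongr
  set A := ∑ i ∈ s, ‖a i‖
  set B := ∑ i ∈ s, ‖a i‖ ^ 2
  have hA : 0 ≤ A := Finset.sum_nonneg fun i _ => norm_nonneg _
  have hB : 0 ≤ B := Finset.sum_nonneg fun i _ => by positivity
  calc ‖b + ∑ i ∈ s, a i‖ ^ 2 ≤ (‖b‖ + A) ^ 2 := pow_le_pow_left₀ (norm_nonneg _) h1 2
    _ ≤ (ℓ + 1) * (‖b‖ ^ 2 + B) := by
      rcases Nat.eq_zero_or_pos ℓ with h | h
      · subst h
        have hA0 : A ^ 2 ≤ 0 := by simpa using h2
        have : A = 0 := by nlinarith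
        rw [this]
        push_cast
        nlinarith
      · have hl : (0 : ℝ) < ℓ := by exact_mod_cast h
        have h3 : 2 * ‖b‖ * A ≤ ℓ * ‖b‖ ^ 2 + A ^ 2 / ℓ := by
          have : 0 ≤ (ℓ * ‖b‖ - A) ^ 2 / ℓ := by positivity
          have e : (ℓ * ‖b‖ - A) ^ 2 / ℓ = ℓ * ‖b‖ ^ 2 - 2 * ‖b‖ * A + A ^ 2 / ℓ := by
            field_simp
            ring
          linarith
        have h4 : A ^ 2 / ℓ ≤ B := by
          rw [div_le_iff₀ hl]
          linarith
        nlinarith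

end MPd26.HK.PavgM
end

section
/-!
# MP_d26cd8_an, final assembly: seminorms
-/
set_option autoImplicit false

open MeasureTheory ProbabilityTheory Filter Topology Polynomial
open scoped ComplexConjugate ENNReal

namespace MPd26.HK.ErgM

open MPd26.Nil MPd26.PET

section Basic
variable {α : Type} [MeasurableSpace α] (X : Sys α)

lemma mpX : MP X.μ X.S.toEquiv := ⟨X.S.measurable, X.S.symm.measurable, X.mp⟩

variable [StandardBorelSpace α]

lemma sn_eq_zero {n : ℕ} {f : α → ℂ} : X.sn n f = 0 ↔ ∫ x, cp f n x ∂(X.cm n) = 0 := by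
  unfold Sys.sn
  rw [Real.rpow_eq_zero (norm_nonneg _) (by positivity), norm_eq_zero]

lemma hkn (hN : SpecN) : HKN X.μ X.S.toEquiv X.NP where
  one f hf := (hN α X f (PavgM.U.bdd hf)).1
  succ k hk f hf := ((hN α X f (PavgM.U.bdd hf)).2 k hk).2.2.2.2
  nonneg k hk f hf := ((hN α X f (PavgM.U.bdd hf)).2 k hk).1
  inv k hk f hf := ((hN α X f (PavgM.U.bdd hf)).2 k hk).2.2.1
  cj k hk f hf := ((hN α X f (PavgM.U.bdd hf)).2 k hk).2.2.2.1

lemma sg_neg {n : ℕ} (ε : Vx n) (z : ℂ) : sg ε (-z) = -sg ε z := by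
  unfold sg
  split_ifs
  · rfl
  · rw [map_neg]

lemma sg_sub {n : ℕ} (ε : Vx n) (z w : ℂ) : sg ε (z - w) = sg ε z + -sg ε w := by
  unfold sg
  split_ifs
  · ring
  · rw [map_sub]; ring

lemma sn_neg_zero {n : ℕ} {g : α → ℂ} (h : X.sn n g = 0) : X.sn n (fun x => -g x) = 0 := by
  rw [sn_eq_zero] at h ⊢
  have e : ∀ x : Cube n α, cp (fun y => -g y) n x = (∏ _ε : Vx n, (-1 : ℂ)) * cp g n x := by
    intro x
    unfold cp
    rw [← Finset.prod_mul_distrib]
    refine Finset.prod_congr rfl fun ε _ => ?_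
    rw [sg_neg]; ring
  simp_rw [e]
  rw [integral_const_mul, h, mul_zero]

/-- Differences of functions with vanishing seminorm. -/
lemma sn_sub_zero (hG : SpecGCS) {n : ℕ} {f g : α → ℂ} (hf : Bdd f) (hg : Bdd g)
    (h1 : X.sn (n + 1) f = 0) (h2 : X.sn (n + 1) g = 0) :
    X.sn (n + 1) (fun x => f x - g x) = 0 := by
  classical
  rw [sn_eq_zero]
  have e : ∀ x : Cube (n + 1) α, cp (fun y => f y - g y) (n + 1) x =
      ∑ t ∈ (Finset.univ : Finset (Vx (n + 1))).powerset,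
        ∏ ε, (if ε ∈ t then (fun y => sg ε (f y)) else fun y => -sg ε (g y)) (x ε) := by
    intro x
    unfold cp
    simp_rw [sg_sub]
    rw [Finset.prod_add]
    refine Finset.sum_congr rfl fun t _ => ?_
    have h := Finset.prod_piecewise (Finset.univ : Finset (Vx (n + 1))) t
      (fun ε => sg ε (f (x ε))) (fun ε => -sg ε (g (x ε)))
    rw [Finset.univ_inter] at h
    rw [← h]
    refine Finset.prod_congr rfl fun ε _ => ?_
    unfold Finset.piecewise
    split_ifs <;> rfl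
  have hF : ∀ (t : Finset (Vx (n + 1))) (ε : Vx (n + 1)),
      Bdd (if ε ∈ t then (fun y => sg ε (f y)) else fun y => -sg ε (g y)) := by
    intro t ε
    split_ifs
    · exact hf.sg ε
    · exact (hg.sg ε).neg
  have hz : ∀ t : Finset (Vx (n + 1)), ∫ x : Cube (n + 1) α,
      ∏ ε, (if ε ∈ t then (fun y => sg ε (f y)) else fun y => -sg ε (g y)) (x ε)
        ∂(X.cm (n + 1)) = 0 := by
    intro t
    rw [← norm_eq_zero]
    refine le_antisymm ((hG α X n _ (hF t)).trans (le_of_eq ?_)) (norm_nonneg _)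
    refine Finset.prod_eq_zero (Finset.mem_univ v0) ?_
    split_ifs with h
    · simpa only [sg_v0] using h1
    · simpa only [sg_v0] using sn_neg_zero X h2
  simp_rw [e]
  rw [integral_finsetSum]
  · exact Finset.sum_eq_zero fun t _ => hz t
  · intro t _
    exact (Bdd.prod Finset.univ fun ε _ => (hF t ε).comp (measurable_pi_apply ε)).integrable _

lemma sn_smul_zero {n : ℕ} {g : α → ℂ} (c : ℝ) (h : X.sn n g = 0) :
    X.sn n (fun x => (c : ℂ) * g x) = 0 := by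
  rw [sn_eq_zero] at h ⊢
  have e : ∀ x : Cube n α, cp (fun y => (c : ℂ) * g y) n x
      = (∏ _ε : Vx n, (c : ℂ)) * cp g n x := by
    intro x
    unfold cp
    rw [← Finset.prod_mul_distrib]
    refine Finset.prod_congr rfl fun ε _ => ?_
    unfold sg
    split_ifs
    · rfl
    · rw [map_mul, Complex.conj_ofReal]
  simp_rw [e]
  rw [integral_const_mul, h, mul_zero]

end Basic

section Comp
variable {α β : Type} [MeasurableSpace α] [StandardBorelSpace α] [MeasurableSpace β]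
  [StandardBorelSpace β] {X : Sys α} {Y : Sys β} {p : α → β}

lemma sn_comp (hFac : SpecFac) (h : FMap X Y p) {f : β → ℂ} (hf : Bdd f) (n : ℕ) :
    X.sn n (fun x => f (p x)) = Y.sn n f := by
  unfold Sys.sn
  have h1 := (hFac α β X Y p h n).1
  have e : ∫ x, cp (fun y => f (p y)) n x ∂(X.cm n) = ∫ x, cp f n x ∂(Y.cm n) := by
    rw [← h1.map_eq, integral_map h1.measurable.aemeasurable
      (measurable_cp hf.1 n).aestronglyMeasurable]
    rfl
  rw [e]

end Comp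

/-! ## Box averages -/

lemma sum_box (k H : ℕ) (g : (Fin k → ℕ) → ℂ) :
    ∑ h : Fin k → Fin H, g (fun i => (h i : ℕ)) =
      ∑ h ∈ Fintype.piFinset (fun _ : Fin k => Finset.range H), g h := by
  refine Finset.sum_bij (fun h _ i => (h i : ℕ)) ?_ ?_ ?_ ?_
  · intro h _
    simp only [Fintype.mem_piFinset, Finset.mem_range]
    exact fun i => (h i).2
  · intro h _ h' _ e
    funext i
    exact Fin.ext (congrFun e i)
  · intro h hh
    simp only [Fintype.mem_piFinset, Finset.mem_range] at hh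
    exact ⟨fun i => ⟨h i, hh i⟩, Finset.mem_univ _, rfl⟩
  · intro h _
    rfl

lemma boxAvg_tendsto (hBox : SpecBox) {α : Type} [MeasurableSpace α] [StandardBorelSpace α]
    (X : Sys α) {F : α → ℂ} (hF : Bdd F) (k : ℕ) :
    Tendsto (fun H : ℕ => boxAvg X.μ (fun n => X.S^[n]) F k H) atTop
      (𝓝 (∫ x, cp F k x ∂(X.cm k))) := by
  have h := hBox α X k (fun ε x => sg ε (F x)) (fun ε => hF.sg ε)
  have hc : Tendsto (fun H : ℕ => (fun _ : Fin k => H)) atTop atTop := by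
    rw [tendsto_atTop]
    intro b
    filter_upwards [eventually_ge_atTop (∑ i, b i)] with H hH i
    exact (Finset.single_le_sum (fun i _ => Nat.zero_le (b i)) (Finset.mem_univ i)).trans hH
  refine (h.comp hc).congr fun H => ?_
  simp only [Function.comp_apply]
  unfold boxAvg
  rw [sum_box k H (fun h => ∫ x, ∏ ε : Vx k,
    sg ε (F (X.S^[∑ i ∈ Finset.univ.filter (fun i => ε i = true), h i] x)) ∂X.μ)]
  congr 1
  · simp
  · refine Finset.sum_congr rfl fun h _ => ?_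
    refine integral_congr_ae (Eventually.of_forall fun x => ?_)
    refine Finset.prod_congr rfl fun ε _ => ?_
    rw [Finset.sum_filter]

/-! ## The suspension -/

section Susp
variable {α : Type} [MeasurableSpace α] (X : Sys α)

lemma suspT_one (q : α × UI) : suspT X 1 q = (X.S q.1, q.2) := by
  obtain ⟨x, r⟩ := q
  have hfl : ⌊(r : ℝ) + 1⌋ = 1 := by
    rw [Int.floor_add_one, Int.floor_eq_zero_iff.2 r.2, zero_add]
  unfold suspT
  refine Prod.ext ?_ ?_
  · show ((X.S.toEquiv : Equiv.Perm α) ^ ⌊(r : ℝ) + 1⌋) x = X.S x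
    rw [hfl, zpow_one]
    rfl
  · refine Subtype.ext ?_
    show Int.fract ((r : ℝ) + 1) = r
    rw [Int.fract_add_one]
    exact Int.fract_eq_self.2 r.2

variable {X} {Fl : Flow (α × UI)} (hμ : Fl.μ = X.μ.prod volUI) (hT : Fl.T = suspT X)

include hμ hT in
lemma fst_fmap : FMap (Fl.sys 1) X Prod.fst where
  meas := measurable_fst
  law := by
    show Fl.μ.map Prod.fst = X.μ
    rw [hμ, Measure.map_fst_prod]
    simp
  eqv := by
    refine Eventually.of_forall fun q => ?_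
    show (Fl.T 1 q).1 = X.S q.1
    rw [hT, suspT_one]

include hT in
lemma fst_zpow (z : ℤ) (q : α × UI) :
    (((Fl.sys 1).S.toEquiv ^ z : Equiv.Perm (α × UI)) q).1
      = ((X.S.toEquiv ^ z : Equiv.Perm α) q.1) := by
  have h1 : ∀ q : α × UI, ((Fl.sys 1).S.toEquiv q).1 = X.S.toEquiv q.1 := by
    intro q
    show (Fl.T 1 q).1 = X.S q.1
    rw [hT, suspT_one]
  have h2 : ∀ q : α × UI, ((Fl.sys 1).S.toEquiv.symm q).1 = X.S.toEquiv.symm q.1 := by
    intro q
    rw [Equiv.eq_symm_apply, ← h1, Equiv.apply_symm_apply]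
  induction z using Int.induction_on generalizing q with
  | zero => simp
  | succ n ih =>
    rw [zpow_add_one, zpow_add_one, Equiv.Perm.mul_apply, Equiv.Perm.mul_apply, ih, h1]
  | pred n ih =>
    rw [zpow_sub_one, zpow_sub_one, Equiv.Perm.mul_apply, Equiv.Perm.mul_apply, ih]
    congr 1
    exact h2 q

include hT in
lemma pavg_fst {ℓ : ℕ} (p : Fin ℓ → ℤ[X]) (f : Fin ℓ → α → ℂ) (N : ℕ) (q : α × UI) :
    pavg (Fl.sys 1).S.toEquiv p (fun i q => f i q.1) N q = pavg X.S.toEquiv p f N q.1 := by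
  unfold pavg
  simp only [fst_zpow hT]

include hμ hT in
lemma int_pavg_fst {ℓ : ℕ} (p : Fin ℓ → ℤ[X]) {f : Fin ℓ → α → ℂ} (hf : ∀ i, U (f i)) (N : ℕ) :
    ∫ q, ‖pavg (Fl.sys 1).S.toEquiv p (fun i q => f i q.1) N q‖ ^ 2 ∂Fl.μ
      = ∫ x, ‖pavg X.S.toEquiv p f N x‖ ^ 2 ∂X.μ := by
  simp only [pavg_fst hT]
  have h1 : MeasurePreserving Prod.fst Fl.μ X.μ := (fst_fmap hμ hT).mp
  rw [← h1.map_eq, integral_map h1.measurable.aemeasurable]
  exact ((PavgM.pavg_U (mpX X) hf N).1.norm.pow_const 2).aestronglyMeasurable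

end Susp

end MPd26.HK.ErgM
end

section
/-!
# MP_d26cd8_an, final assembly: one nil-map
-/
set_option autoImplicit false

open MeasureTheory ProbabilityTheory Filter Topology Polynomial
open scoped ComplexConjugate ENNReal

namespace MPd26.HK.ErgM

open MPd26.Nil MPd26.PET

section FlowY
variable {α : Type} [MeasurableSpace α]

lemma continuous_expU_smul {M : ℕ} {ξ : Mat M} (hξ : IsSU ξ) :
    Continuous (fun t : ℝ => expU (t • ξ)) := by
  rw [UT.isInducing_mat.continuous_iff]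
  have : (UT.mat ∘ fun t : ℝ => expU (t • ξ)) = fun t : ℝ => expM (t • ξ) := by
    funext t
    exact expU_mat (Lev.smul t hξ)
  rw [this]
  exact continuous_expM.comp (continuous_id.smul continuous_const)

lemma measurable_act {M : ℕ} {ξ : Mat M} (hξ : IsSU ξ) :
    Measurable (fun q : ℝ × NM M => expU (q.1 • ξ) • q.2) := by
  have h : Continuous (fun q : ℝ × NM M => expU (q.1 • ξ) • q.2) :=
    ((continuous_expU_smul hξ).comp continuous_fst).smul continuous_snd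
  exact h.measurable

/-- The flow on `NM M` given by a nil-map. -/
noncomputable def flowY (Fl : Flow α) {M : ℕ} (Q : α → NM M) (hQm : Measurable Q) (ξ : Mat M)
    (hξ : IsSU ξ) (hQ : ∀ t : ℝ, ∀ᵐ x ∂Fl.μ, Q (Fl.T t x) = expU (t • ξ) • Q x) :
    Flow (NM M) where
  μ := Fl.μ.map Q
  prob := Measure.isProbabilityMeasure_map hQm.aemeasurable
  T t y := expU (t • ξ) • y
  T_zero y := by rw [zero_smul, expU_zero, one_smul]
  T_add s t y := by
    rw [add_smul, expU_add (Lev.smul s hξ) (Lev.smul t hξ)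
      ((Commute.refl ξ).smul_left s |>.smul_right t), mul_smul]
  meas := measurable_act hξ
  mp t := by
    have hm : Measurable (fun y : NM M => expU (t • ξ) • y) :=
      (measurable_act hξ).comp (measurable_const.prodMk measurable_id)
    refine ⟨hm, ?_⟩
    rw [Measure.map_map hm hQm]
    have h1 : ((fun y : NM M => expU (t • ξ) • y) ∘ Q) =ᵐ[Fl.μ] Q ∘ Fl.T t := by
      filter_upwards [hQ t] with x hx
      exact hx.symm
    rw [Measure.map_congr h1, ← Measure.map_map hQm (Fl.measT t), (Fl.mp t).map_eq]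

variable {Fl : Flow α} {M : ℕ} {Q : α → NM M} {hQm : Measurable Q} {ξ : Mat M} {hξ : IsSU ξ}
  {hQ : ∀ t : ℝ, ∀ᵐ x ∂Fl.μ, Q (Fl.T t x) = expU (t • ξ) • Q x}

lemma flowY_erg (hErg : Fl.Erg) : (flowY Fl Q hQm ξ hξ hQ).Erg := by
  intro A hA hinv
  have h1 : ∀ t : ℝ, Fl.T t ⁻¹' (Q ⁻¹' A) =ᵐ[Fl.μ] Q ⁻¹' A := by
    intro t
    have h2 : Q ⁻¹' ((fun y : NM M => expU (t • ξ) • y) ⁻¹' A) =ᵐ[Fl.μ] Q ⁻¹' A := by
      have h3 : (fun y : NM M => expU (t • ξ) • y) ⁻¹' A =ᵐ[Fl.μ.map Q] A := hinv t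
      exact (Measure.QuasiMeasurePreserving.preimage_ae_eq ⟨hQm, Measure.AbsolutelyContinuous.rfl⟩ h3)
    refine Filter.EventuallyEq.trans ?_ h2
    filter_upwards [hQ t] with x hx
    show (Q (Fl.T t x) ∈ A) = (expU (t • ξ) • Q x ∈ A)
    rw [hx]
  have h2 := hErg (Q ⁻¹' A) (hQm hA) h1
  have h3 : (flowY Fl Q hQm ξ hξ hQ).μ A = Fl.μ (Q ⁻¹' A) := Measure.map_apply hQm hA
  rw [h3]
  exact h2

lemma flowY_fmap : FMap (Fl.sys 1) ((flowY Fl Q hQm ξ hξ hQ).sys 1) Q where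
  meas := hQm
  law := rfl
  eqv := hQ 1

end FlowY

section FMapPow
variable {α β : Type} [MeasurableSpace α] [MeasurableSpace β] {X : Sys α} {Y : Sys β} {p : α → β}

lemma fmap_zpow (h : FMap X Y p) (z : ℤ) :
    ∀ᵐ x ∂X.μ, p ((X.S.toEquiv ^ z : Equiv.Perm α) x) = (Y.S.toEquiv ^ z : Equiv.Perm β) (p x) := by
  induction z using Int.induction_on with
  | zero => exact Eventually.of_forall fun x => by simp
  | succ n ih =>
    filter_upwards [X.mp.quasiMeasurePreserving.ae ih, h.eqv] with x h1 h2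
    rw [zpow_add_one, zpow_add_one, Equiv.Perm.mul_apply, Equiv.Perm.mul_apply]
    refine h1.trans ?_
    rw [h2]
    rfl
  | pred n ih =>
    filter_upwards [(X.mp.symm X.S).quasiMeasurePreserving.ae ih, h.eqv'] with x h1 h2
    rw [zpow_sub_one, zpow_sub_one, Equiv.Perm.mul_apply, Equiv.Perm.mul_apply]
    refine h1.trans ?_
    rw [h2]
    rfl

lemma int_pavg_fmap (h : FMap X Y p) {ℓ : ℕ} (q : Fin ℓ → ℤ[X]) {G : Fin ℓ → β → ℂ}
    (hG : ∀ i, U (G i)) (N : ℕ) :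
    ∫ x, ‖pavg X.S.toEquiv q (fun i x => G i (p x)) N x‖ ^ 2 ∂X.μ
      = ∫ y, ‖pavg Y.S.toEquiv q G N y‖ ^ 2 ∂Y.μ := by
  have h1 : ∀ᵐ x ∂X.μ, pavg X.S.toEquiv q (fun i x => G i (p x)) N x
      = pavg Y.S.toEquiv q G N (p x) := by
    have h2 : ∀ᵐ x ∂X.μ, ∀ z : ℤ, p ((X.S.toEquiv ^ z : Equiv.Perm α) x)
        = (Y.S.toEquiv ^ z : Equiv.Perm β) (p x) := ae_all_iff.2 fun z => fmap_zpow h z
    filter_upwards [h2] with x hx
    unfold pavg
    simp only [hx]
  rw [← h.mp.map_eq, integral_map h.meas.aemeasurable]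
  · refine integral_congr_ae ?_
    filter_upwards [h1] with x hx
    rw [hx]
  · exact ((PavgM.pavg_U (mpX Y) hG N).1.norm.pow_const 2).aestronglyMeasurable

/-- The conditional expectation on the completed factor. -/
lemma condExp_fac (h : FMap X Y p) {f : α → ℂ} (hf : Bdd f) :
    X.μ[f | MeasurableSpace.comap p inferInstance] =ᵐ[X.μ] X.μ[f | h.fac.σ] := by
  have hle : MeasurableSpace.comap p inferInstance ≤ h.fac.σ := by
    rintro _ ⟨B, hB, rfl⟩
    exact h.fac_measurable hB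
  have hle' : MeasurableSpace.comap p inferInstance ≤ (inferInstance : MeasurableSpace α) :=
    h.meas.comap_le
  refine ae_eq_condExp_of_forall_setIntegral_eq h.fac.le (hf.integrable _)
    (fun s _ _ => integrable_condExp.integrableOn) ?_ ?_
  · rintro s ⟨hs, B, hB, hsB⟩ -
    rw [setIntegral_congr_set hsB, setIntegral_congr_set hsB]
    exact setIntegral_condExp hle' (hf.integrable _) ⟨B, hB, rfl⟩
  · exact (stronglyMeasurable_condExp.mono hle).aestronglyMeasurable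

end FMapPow

/-- One nil-map: projections of the functions to the factor. -/
lemma nil_step (hNT : SpecNT) (hFac : SpecFac) (hProj : SpecProj) {β : Type}
    [MeasurableSpace β] [StandardBorelSpace β] (Fl : Flow β) (hErg : Fl.Erg) {M : ℕ}
    [StandardBorelSpace (NM M)] {Q : β → NM M} (hQ : Fl.NilMap M Q) {ℓ : ℕ} (hℓ : 2 ≤ ℓ)
    (p : Fin ℓ → ℤ[X]) (hp : ∀ i, 0 < (p i).natDegree)
    (hpp : ∀ i j, i ≠ j → 0 < (p i - p j).natDegree) {E : Fin ℓ → β → ℂ} (hE : ∀ i, U (E i))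
    (j : Fin ℓ) (hj : (Fl.sys 1).sn ℓ (E j) = 0) :
    ∃ G : Fin ℓ → NM M → ℂ, (∀ i, U (G i)) ∧
      (∀ i, ∀ h : NM M → ℂ, U h →
        dist2 Fl.μ (E i) (fun x => G i (Q x)) ≤ dist2 Fl.μ (E i) (fun x => h (Q x))) ∧
      Tendsto (fun N : ℕ => ∫ x, ‖pavg (Fl.sys 1).S.toEquiv p (fun i x => G i (Q x)) N x‖ ^ 2 ∂Fl.μ)
        atTop (𝓝 0) := by
  obtain ⟨hQm, ξ, hξ, hQt⟩ := hQ
  set FY := flowY Fl Q hQm ξ hξ hQt with hFY
  have hfm : FMap (Fl.sys 1) (FY.sys 1) Q := flowY_fmap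
  have hle : MeasurableSpace.comap Q inferInstance ≤ (inferInstance : MeasurableSpace β) :=
    hQm.comap_le
  have hG0 : ∀ i, ∃ g : NM M → ℂ, U g ∧
      Fl.μ[E i | MeasurableSpace.comap Q inferInstance] =ᵐ[Fl.μ] fun x => g (Q x) := by
    intro i
    obtain ⟨g, hg1, hg2, hg3⟩ := exists_condExp_version (μ := Fl.μ) hle zero_le_one (hE i).2
    obtain ⟨u, hu, hgu⟩ := hg1.exists_eq_measurable_comp
    refine ⟨fun y => if ‖u y‖ ≤ 1 then u y else 0, ⟨?_, fun y => ?_⟩, ?_⟩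
    · exact Measurable.ite (measurableSet_le hu.norm measurable_const) hu measurable_const
    · show ‖(if ‖u y‖ ≤ 1 then u y else 0)‖ ≤ 1
      split_ifs with h
      · exact h
      · simp
    · refine hg3.trans (Eventually.of_forall fun x => ?_)
      have h1 : g x = u (Q x) := congrFun hgu x
      show g x = if ‖u (Q x)‖ ≤ 1 then u (Q x) else 0
      rw [← h1, if_pos (hg2 x)]
  choose G hGU hGE using hG0
  refine ⟨G, hGU, fun i h hh => ?_, ?_⟩
  · have h1 : AEStronglyMeasurable[MeasurableSpace.comap Q inferInstance]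
        (fun x => h (Q x)) Fl.μ := by
      have h2 : Measurable[MeasurableSpace.comap Q inferInstance] (fun x => h (Q x)) :=
        hh.1.comp (comap_measurable Q)
      exact h2.stronglyMeasurable.aestronglyMeasurable
    have h2 := dist2_condExp_le (μ := Fl.μ) hle (PavgM.U.bdd (hE i))
      (PavgM.U.bdd ⟨hh.1.comp hQm, fun _ => hh.2 _⟩) h1
    rwa [dist2_congr (ae_eq_refl _) (hGE i)] at h2
  · have hsn : (FY.sys 1).sn ℓ (G j) = 0 := by
      rw [← sn_comp hFac hfm (PavgM.U.bdd (hGU j)) ℓ]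
      obtain ⟨k, rfl⟩ : ∃ k, ℓ = k + 1 := ⟨ℓ - 1, by omega⟩
      refine hProj β (Fl.sys 1) hfm.fac k (E j) (fun x => G j (Q x)) (PavgM.U.bdd (hE j))
        (PavgM.U.bdd ⟨(hGU j).1.comp hQm, fun _ => (hGU j).2 _⟩) ?_ hj
      exact (hGE j).symm.trans (condExp_fac hfm (PavgM.U.bdd (hE j)))
    have h1 := hNT M ξ hξ FY (flowY_erg hErg) (fun t y => rfl) ℓ hℓ p hp hpp G
      (fun i => PavgM.U.bdd (hGU i)) j hsn
    refine h1.congr fun N => ?_
    exact (int_pavg_fmap hfm p hGU N).symm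

end MPd26.HK.ErgM
end

section
/-!
# MP_d26cd8_an, final assembly: the theorem for ergodic systems
-/
set_option autoImplicit false

open MeasureTheory ProbabilityTheory Filter Topology Polynomial
open scoped ComplexConjugate ENNReal

namespace MPd26.HK.ErgM

open MPd26.Nil MPd26.PET

/-- All seminorms of the part orthogonal to the nil-factor vanish. -/
lemma rest_zero (hBox : SpecBox) (hMono : SpecMono) {β : Type} [MeasurableSpace β]
    [StandardBorelSpace β] (Fl : Flow β) {R : β → ℂ} (hR : Bdd R)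
    (h : ∀ k : ℕ, Tendsto (fun H : ℕ => boxAvg Fl.μ (fun n => (Fl.T 1)^[n]) R (k + 2) H)
      atTop (𝓝 0)) (k : ℕ) : (Fl.sys 1).sn (k + 1) R = 0 := by
  have h2 : ∀ k : ℕ, (Fl.sys 1).sn (k + 2) R = 0 := by
    intro k
    rw [sn_eq_zero]
    exact tendsto_nhds_unique (boxAvg_tendsto hBox (Fl.sys 1) hR (k + 2)) (h k)
  rcases k with _ | k
  · have h3 := hMono β (Fl.sys 1) 0 R hR
    rw [h2 0] at h3
    refine le_antisymm h3 ?_
    unfold Sys.sn
    positivity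
  · exact h2 k

lemma norm_sq_add_le (a b : ℂ) : ‖a + b‖ ^ 2 ≤ 2 * (‖a‖ ^ 2 + ‖b‖ ^ 2) := by
  have h1 : ‖a + b‖ ≤ ‖a‖ + ‖b‖ := norm_add_le a b
  have h2 : ‖a + b‖ ^ 2 ≤ (‖a‖ + ‖b‖) ^ 2 := pow_le_pow_left₀ (norm_nonneg _) h1 2
  nlinarith [sq_nonneg (‖a‖ - ‖b‖)]

/-- The main step: `|f_i| ≤ 1`. -/
theorem erg_one (hSusp : SpecSusp) (hD : SpecD) (hNT : SpecNT) (hSB : SpecSBNM)
    (hP : SpecProdNil) (hFac : SpecFac) (hN : SpecN) (hBox : SpecBox) (hMono : SpecMono)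
    (hGCS : SpecGCS) (hProj : SpecProj) {α : Type} [MeasurableSpace α] [StandardBorelSpace α]
    (X : Sys α) (hX : X.Erg) {ℓ : ℕ} (hℓ : 2 ≤ ℓ) (p : Fin ℓ → ℤ[X])
    (hp : ∀ i, 0 < (p i).natDegree) (hpp : ∀ i j, i ≠ j → 0 < (p i - p j).natDegree)
    (f : Fin ℓ → α → ℂ) (hf : ∀ i, U (f i)) (j : Fin ℓ) (hj : X.sn ℓ (f j) = 0) :
    Tendsto (fun N : ℕ => ∫ x, ‖pavg X.S.toEquiv p f N x‖ ^ 2 ∂X.μ) atTop (𝓝 0) := by
  classical
  obtain ⟨Fl, hμ, hT, hFE⟩ := hSusp α X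
  have hErg : Fl.Erg := hFE hX
  obtain ⟨Nf, -, hNapp, hNbox⟩ := hD α X hX Fl hμ hT
  have hfst : FMap (Fl.sys 1) X Prod.fst := fst_fmap hμ hT
  set F : Fin ℓ → (α × UI) → ℂ := fun i q => f i q.1 with hF
  have hFU : ∀ i, U (F i) := fun i => ⟨(hf i).1.comp measurable_fst, fun q => (hf i).2 _⟩
  have hE0 : ∀ i, ∃ e : (α × UI) → ℂ, Measurable[Nf.σ] e ∧ (∀ q, ‖e q‖ ≤ 1) ∧
      Fl.μ[F i | Nf.σ] =ᵐ[Fl.μ] e := fun i =>
    exists_condExp_version (μ := Fl.μ) Nf.le zero_le_one (hFU i).2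
  choose E hEm hE1 hEe using hE0
  have hEU : ∀ i, U (E i) := fun i => ⟨(hEm i).mono Nf.le le_rfl, hE1 i⟩
  have hRb : ∀ i, Bdd (fun q => F i q - E i q) := fun i =>
    (PavgM.U.bdd (hFU i)).sub (PavgM.U.bdd (hEU i))
  have hR0 : ∀ i, Fl.μ[fun q => F i q - E i q | Nf.σ] =ᵐ[Fl.μ] 0 := by
    intro i
    have h1 : Fl.μ[F i - E i | Nf.σ] =ᵐ[Fl.μ] Fl.μ[F i | Nf.σ] - Fl.μ[E i | Nf.σ] :=
      condExp_sub ((PavgM.U.bdd (hFU i)).integrable _) ((PavgM.U.bdd (hEU i)).integrable _) _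
    have h2 : Fl.μ[E i | Nf.σ] = E i :=
      condExp_of_stronglyMeasurable Nf.le (hEm i).stronglyMeasurable
        ((PavgM.U.bdd (hEU i)).integrable _)
    have h3 : (fun q => F i q - E i q) = F i - E i := rfl
    rw [h3]
    refine h1.trans ?_
    rw [h2]
    filter_upwards [hEe i] with q hq
    rw [Pi.sub_apply, hq, sub_self]
    rfl
  have hRsn : ∀ i k, (Fl.sys 1).sn (k + 1) (fun q => F i q - E i q) = 0 := fun i k =>
    rest_zero hBox hMono Fl (hRb i) (fun k => hNbox _ (hRb i) (hR0 i) k) k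
  -- the seminorm of `E j`
  have hFj : (Fl.sys 1).sn ℓ (F j) = 0 := by
    rw [hF]
    exact (sn_comp hFac hfst (PavgM.U.bdd (hf j)) ℓ).trans hj
  have hEj : (Fl.sys 1).sn ℓ (E j) = 0 := by
    obtain ⟨k, rfl⟩ : ∃ k, ℓ = k + 1 := ⟨ℓ - 1, by omega⟩
    have h1 := sn_sub_zero (Fl.sys 1) hGCS (PavgM.U.bdd (hFU j)) (hRb j) hFj (hRsn j k)
    have e : (fun q => F j q - (F j q - E j q)) = E j := by
      funext q; ring
    rwa [e] at h1
  -- PET for the rests
  have hMP : MP Fl.μ (Fl.sys 1).S.toEquiv := mpX (Fl.sys 1)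
  have hHKN : HKN Fl.μ (Fl.sys 1).S.toEquiv (Fl.sys 1).NP := hkn (Fl.sys 1) hN
  set r : Fin ℓ → (α × UI) → ℂ := fun i q => ((2⁻¹ : ℝ) : ℂ) * (F i q - E i q) with hr
  have hrU : ∀ i, U (r i) := by
    intro i
    refine ⟨measurable_const.mul ((hFU i).1.sub (hEU i).1), fun q => ?_⟩
    show ‖((2⁻¹ : ℝ) : ℂ) * (F i q - E i q)‖ ≤ 1
    rw [norm_mul, Complex.norm_real, Real.norm_eq_abs, abs_of_pos (by norm_num : (0 : ℝ) < 2⁻¹)]
    have h1 : ‖F i q - E i q‖ ≤ 1 + 1 :=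
      (norm_sub_le _ _).trans (add_le_add ((hFU i).2 q) ((hEU i).2 q))
    linarith
  have hrN : ∀ i k, 1 ≤ k → (Fl.sys 1).NP k (r i) = 0 := by
    intro i k hk
    obtain ⟨k, rfl⟩ : ∃ k', k = k' + 1 := ⟨k - 1, by omega⟩
    have h1 := sn_smul_zero (Fl.sys 1) (2⁻¹ : ℝ) (hRsn i k)
    rw [sn_eq_zero] at h1
    unfold Sys.NP
    rw [hr, h1, Complex.zero_re]
  -- the error terms
  set H' : Fin ℓ → Fin ℓ → (α × UI) → ℂ := fun i k =>
    if k = i then r i else if k < i then E k else F k with hH'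
  have hH'U : ∀ i k, U (H' i k) := by
    intro i k
    simp only [hH']
    split_ifs
    · exact hrU i
    · exact hEU k
    · exact hFU k
  have hscale : ∀ (i : Fin ℓ) (N : ℕ) (q : α × UI), pavg (Fl.sys 1).S.toEquiv p
      (fun k => if k = i then (fun y => F i y - E i y) else if k < i then E k else F k) N q
      = 2 * pavg (Fl.sys 1).S.toEquiv p (H' i) N q := by
    intro i N q
    unfold pavg
    rw [mul_left_comm]
    congr 1
    rw [Finset.mul_sum]
    refine Finset.sum_congr rfl fun n _ => ?_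
    have h2 : (2 : ℂ) = ∏ k : Fin ℓ, (if k = i then (2 : ℂ) else 1) := by
      rw [Finset.prod_ite_eq' Finset.univ i]
      simp
    rw [h2, ← Finset.prod_mul_distrib]
    refine Finset.prod_congr rfl fun k _ => ?_
    simp only [hH']
    split_ifs with h3 h4
    · subst h3
      simp only [hr]
      push_cast
      ring
    · rw [one_mul]
    · rw [one_mul]
  have hmain : ∀ (N : ℕ), ∫ q, ‖pavg (Fl.sys 1).S.toEquiv p F N q‖ ^ 2 ∂Fl.μ ≤
      (ℓ + 1) * (∫ q, ‖pavg (Fl.sys 1).S.toEquiv p E N q‖ ^ 2 ∂Fl.μ +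
        ∑ i, 4 * ∫ q, ‖pavg (Fl.sys 1).S.toEquiv p (H' i) N q‖ ^ 2 ∂Fl.μ) := by
    intro N
    have hiE : Integrable (fun q => ‖pavg (Fl.sys 1).S.toEquiv p E N q‖ ^ 2) Fl.μ :=
      PavgM.integrable_sq (PavgM.U.bdd (PavgM.pavg_U hMP hEU N))
    have hiH : ∀ i, Integrable (fun q => ‖pavg (Fl.sys 1).S.toEquiv p (H' i) N q‖ ^ 2) Fl.μ :=
      fun i => PavgM.integrable_sq (PavgM.U.bdd (PavgM.pavg_U hMP (hH'U i) N))
    have hiF : Integrable (fun q => ‖pavg (Fl.sys 1).S.toEquiv p F N q‖ ^ 2) Fl.μ :=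
      PavgM.integrable_sq (PavgM.U.bdd (PavgM.pavg_U hMP hFU N))
    have hpt : ∀ q, ‖pavg (Fl.sys 1).S.toEquiv p F N q‖ ^ 2 ≤
        (ℓ + 1) * (‖pavg (Fl.sys 1).S.toEquiv p E N q‖ ^ 2 +
          ∑ i, 4 * ‖pavg (Fl.sys 1).S.toEquiv p (H' i) N q‖ ^ 2) := by
      intro q
      have h1 := PavgM.pavg_tel (T := (Fl.sys 1).S.toEquiv) (p := p) F E N q
      have h2 : pavg (Fl.sys 1).S.toEquiv p F N q = pavg (Fl.sys 1).S.toEquiv p E N q +
          ∑ i, 2 * pavg (Fl.sys 1).S.toEquiv p (H' i) N q := by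
        rw [← sub_eq_iff_eq_add'] 
        rw [h1]
        exact Finset.sum_congr rfl fun i _ => hscale i N q
      rw [h2]
      refine (PavgM.norm_sq_sum_le Finset.univ _ _).trans (le_of_eq ?_)
      congr 2
      refine Finset.sum_congr rfl fun i _ => ?_
      rw [norm_mul, mul_pow]
      norm_num
    calc ∫ q, ‖pavg (Fl.sys 1).S.toEquiv p F N q‖ ^ 2 ∂Fl.μ
        ≤ ∫ q, (ℓ + 1) * (‖pavg (Fl.sys 1).S.toEquiv p E N q‖ ^ 2 +
          ∑ i, 4 * ‖pavg (Fl.sys 1).S.toEquiv p (H' i) N q‖ ^ 2) ∂Fl.μ :=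
          integral_mono hiF ((hiE.add (integrable_finsetSum _ fun i _ =>
            (hiH i).const_mul 4)).const_mul _) hpt
      _ = _ := by
          rw [integral_const_mul, integral_add hiE (integrable_finsetSum _ fun i _ =>
            (hiH i).const_mul 4), integral_finsetSum _ fun i _ => (hiH i).const_mul 4]
          congr 2
          exact Finset.sum_congr rfl fun i _ => integral_const_mul _ _
  rw [Metric.tendsto_atTop]
  intro ε hε
  have hℓ0 : (0 : ℝ) < ℓ := by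
    have : 0 < ℓ := by omega
    exact_mod_cast this
  -- choose η
  set η : ℝ := ε / (16 * (ℓ + 1) * (ℓ + 1) * (ℓ + 1)) with hη
  have hη0 : 0 < η := by positivity
  -- nil approximation
  have happ : ∀ i, ∃ (m : ℕ) (π : α × UI → NM m) (h : NM m → ℂ), Fl.NilMap m π ∧ Continuous h ∧
          (∀ y, ‖h y‖ ≤ 1) ∧ dist2 Fl.μ (E i) (fun x => h (π x)) ≤ η := fun i =>
    hNapp (E i) (hE1 i) (hEm i) η hη0
  choose m π h hπ hhc hh1 hhη using happ
  obtain ⟨M, Q, q, hQ, hq⟩ := hP (α × UI) Fl ℓ m π hπ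
  have := hSB M
  obtain ⟨G, hGU, hGd, hGt⟩ := nil_step hNT hFac hProj Fl hErg hQ hℓ p hp hpp hEU j hEj
  have hGη : ∀ i, dist2 Fl.μ (E i) (fun x => G i (Q x)) ≤ η := by
    intro i
    have h1 := hGd i (fun y => h i (q i y)) ⟨((hhc i).comp (hq i).1).measurable,
      fun y => hh1 i _⟩
    refine h1.trans (le_of_eq_of_le ?_ (hhη i))
    simp only [(hq i).2]
  have hGQU : ∀ i, U (fun x => G i (Q x)) := fun i => ⟨(hGU i).1.comp hQ.1, fun x => (hGU i).2 _⟩
  -- times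
  have hpet : ∀ i, ∃ M0 : ℕ, ∀ N ≥ M0,
      ∫ q, ‖pavg (Fl.sys 1).S.toEquiv p (H' i) N q‖ ^ 2 ∂Fl.μ ≤ η := by
    intro i
    obtain ⟨M0, hM0⟩ := petL2 hMP hHKN p i (hp i) (fun k hk => hpp k i hk) (hrU i) (hrN i) hη0
    refine ⟨M0, fun N hN => ?_⟩
    have := hM0 N hN (H' i) (hH'U i) (by simp [hH'])
    exact this
  choose M0 hM0 using hpet
  obtain ⟨N1, hN1⟩ := (Metric.tendsto_atTop.1 hGt) η hη0
  refine ⟨max N1 (∑ i, M0 i), fun N hN => ?_⟩
  have hN1' := hN1 N ((le_max_left _ _).trans hN)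
  rw [Real.dist_eq, sub_zero, abs_of_nonneg (integral_nonneg fun x => by positivity)] at hN1'
  have hH'' : ∀ i, ∫ q, ‖pavg (Fl.sys 1).S.toEquiv p (H' i) N q‖ ^ 2 ∂Fl.μ ≤ η := fun i =>
    hM0 i N ((Finset.single_le_sum (fun i _ => Nat.zero_le (M0 i)) (Finset.mem_univ i)).trans
      ((le_max_right _ _).trans hN))
  have hEN : ∫ q, ‖pavg (Fl.sys 1).S.toEquiv p E N q‖ ^ 2 ∂Fl.μ ≤ 2 * (ℓ * (ℓ * η) + η) := by
    have hd := PavgM.pavg_dist (p := p) hMP hEU hGQU N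
    have hs : ∑ i, dist2 Fl.μ (E i) (fun x => G i (Q x)) ≤ ℓ * η := by
      calc _ ≤ ∑ _i : Fin ℓ, η := Finset.sum_le_sum fun i _ => hGη i
        _ = ℓ * η := by simp
    have hiD : Integrable (fun x => ‖pavg (Fl.sys 1).S.toEquiv p E N x -
        pavg (Fl.sys 1).S.toEquiv p (fun i x => G i (Q x)) N x‖ ^ 2) Fl.μ :=
      PavgM.integrable_sq ((PavgM.U.bdd (PavgM.pavg_U hMP hEU N)).sub
        (PavgM.U.bdd (PavgM.pavg_U hMP hGQU N)))
    have hiG : Integrable (fun x =>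
        ‖pavg (Fl.sys 1).S.toEquiv p (fun i x => G i (Q x)) N x‖ ^ 2) Fl.μ :=
      PavgM.integrable_sq (PavgM.U.bdd (PavgM.pavg_U hMP hGQU N))
    calc ∫ q, ‖pavg (Fl.sys 1).S.toEquiv p E N q‖ ^ 2 ∂Fl.μ
        ≤ ∫ x, 2 * (‖pavg (Fl.sys 1).S.toEquiv p E N x -
            pavg (Fl.sys 1).S.toEquiv p (fun i x => G i (Q x)) N x‖ ^ 2 +
            ‖pavg (Fl.sys 1).S.toEquiv p (fun i x => G i (Q x)) N x‖ ^ 2) ∂Fl.μ := by
          refine integral_mono (PavgM.integrable_sq (PavgM.U.bdd (PavgM.pavg_U hMP hEU N)))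
            ((hiD.add hiG).const_mul 2) fun x => ?_
          have := norm_sq_add_le (pavg (Fl.sys 1).S.toEquiv p E N x -
            pavg (Fl.sys 1).S.toEquiv p (fun i x => G i (Q x)) N x)
            (pavg (Fl.sys 1).S.toEquiv p (fun i x => G i (Q x)) N x)
          rwa [sub_add_cancel] at this
      _ = 2 * (∫ x, ‖pavg (Fl.sys 1).S.toEquiv p E N x -
            pavg (Fl.sys 1).S.toEquiv p (fun i x => G i (Q x)) N x‖ ^ 2 ∂Fl.μ +
            ∫ x, ‖pavg (Fl.sys 1).S.toEquiv p (fun i x => G i (Q x)) N x‖ ^ 2 ∂Fl.μ) := by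
          rw [integral_const_mul, integral_add hiD hiG]
      _ ≤ 2 * (ℓ * (ℓ * η) + η) := by
          have h1 : (ℓ : ℝ) * ∑ i, dist2 Fl.μ (E i) (fun x => G i (Q x)) ≤ ℓ * (ℓ * η) :=
            mul_le_mul_of_nonneg_left hs hℓ0.le
          linarith
  have hfin : ∫ x, ‖pavg X.S.toEquiv p f N x‖ ^ 2 ∂X.μ
      ≤ (ℓ + 1) * (2 * (ℓ * (ℓ * η) + η) + ℓ * (4 * η)) := by
    rw [← int_pavg_fst hμ hT p hf N]
    refine (hmain N).trans ?_
    have h4 : ∑ i, 4 * ∫ q, ‖pavg (Fl.sys 1).S.toEquiv p (H' i) N q‖ ^ 2 ∂Fl.μ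
        ≤ ℓ * (4 * η) := by
      calc _ ≤ ∑ _i : Fin ℓ, 4 * η := Finset.sum_le_sum fun i _ => by
            have := hH'' i
            linarith
        _ = ℓ * (4 * η) := by simp
    have : (0 : ℝ) ≤ ℓ + 1 := by positivity
    exact mul_le_mul_of_nonneg_left (add_le_add hEN h4) this
  rw [Real.dist_eq, sub_zero, abs_of_nonneg (integral_nonneg fun x => by positivity)]
  refine hfin.trans_lt ?_
  have h5 : (ℓ + 1 : ℝ) * (2 * (ℓ * (ℓ * η) + η) + ℓ * (4 * η)) = η * (ℓ + 1) * (2 * ℓ ^ 2 + 4 * ℓ + 2) := by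
    ring
  have h6 : η * (ℓ + 1) * (2 * ℓ ^ 2 + 4 * ℓ + 2) = ε / 8 := by
    rw [hη]
    field_simp
    ring
  rw [h5, h6]
  linarith

/-- The theorem for ergodic systems. -/
theorem _root_.MPd26.HK.specErg (hSusp : SpecSusp) (hD : SpecD) (hNT : SpecNT) (hSB : SpecSBNM)
    (hP : SpecProdNil) (hFac : SpecFac) (hN : SpecN) (hBox : SpecBox) (hMono : SpecMono)
    (hGCS : SpecGCS) (hProj : SpecProj) : SpecErg := by
  intro α _ _ X hX ℓ hℓ p hp hpp f hf j hj
  have hC : ∃ C : ℝ, 0 < C ∧ ∀ i x, ‖f i x‖ ≤ C := by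
    choose hm C hC using hf
    refine ⟨1 + ∑ i, |C i|, by positivity, fun i x => ?_⟩
    have h1 : |C i| ≤ ∑ i, |C i| :=
      Finset.single_le_sum (fun i _ => abs_nonneg (C i)) (Finset.mem_univ i)
    have h2 := hC i x
    have h3 := le_abs_self (C i)
    linarith
  obtain ⟨C, hC0, hC⟩ := hC
  set g : Fin ℓ → α → ℂ := fun i x => ((C⁻¹ : ℝ) : ℂ) * f i x with hg
  have hgU : ∀ i, U (g i) := by
    intro i
    refine ⟨measurable_const.mul (hf i).1, fun x => ?_⟩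
    show ‖((C⁻¹ : ℝ) : ℂ) * f i x‖ ≤ 1
    rw [norm_mul, Complex.norm_real, Real.norm_eq_abs, abs_of_pos (inv_pos.2 hC0)]
    calc C⁻¹ * ‖f i x‖ ≤ C⁻¹ * C := mul_le_mul_of_nonneg_left (hC i x) (inv_pos.2 hC0).le
      _ = 1 := inv_mul_cancel₀ hC0.ne'
  have h1 := erg_one hSusp hD hNT hSB hP hFac hN hBox hMono hGCS hProj X hX hℓ p hp hpp g hgU j
    (sn_smul_zero X C⁻¹ hj)
  have h2 : ∀ N x, ‖pavg X.S.toEquiv p f N x‖ ^ 2 = (C ^ ℓ) ^ 2 * ‖pavg X.S.toEquiv p g N x‖ ^ 2 := by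
    intro N x
    have h3 : pavg X.S.toEquiv p f N x = ((C ^ ℓ : ℝ) : ℂ) * pavg X.S.toEquiv p g N x := by
      unfold pavg
      rw [mul_left_comm]
      congr 1
      rw [Finset.mul_sum]
      refine Finset.sum_congr rfl fun n _ => ?_
      simp only [hg]
      rw [ Finset.prod_mul_distrib, Finset.prod_const, Finset.card_fin, ← mul_assoc]
      have : ((C ^ ℓ : ℝ) : ℂ) * ((C⁻¹ : ℝ) : ℂ) ^ ℓ = 1 := by
        rw [← Complex.ofReal_pow, ← Complex.ofReal_mul, ← mul_pow, mul_inv_cancel₀ hC0.ne',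
          one_pow, Complex.ofReal_one]
      rw [this, one_mul]
    rw [h3, norm_mul, mul_pow, Complex.norm_real, Real.norm_eq_abs, sq_abs]
  have h4 := h1.const_mul ((C ^ ℓ) ^ 2)
  rw [mul_zero] at h4
  refine h4.congr fun N => ?_
  rw [← integral_const_mul]
  exact integral_congr_ae (Eventually.of_forall fun x => (h2 N x).symm)

end MPd26.HK.ErgM
end
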