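import Pool.Agent.Lib.MP_d26cd8_an.Final.Spec
import Pool.Agent.Lib.MP_d26cd8_an.HK.BoxOne
import Pool.Agent.Lib.MP_d26cd8_an.HK.Dist

/-!
# FIN: the frozen statement from the ergodic case
-/

set_option autoImplicit false

open MeasureTheory ProbabilityTheory Filter Topology Polynomial
open scoped ComplexConjugate ENNReal

namespace MPd26.HK

namespace Fin75

/-- Vertices as subsets. -/
def toSet {n : ℕ} (ε : Vx n) : Finset (Fin n) := Finset.univ.filter fun i => ε i = true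

lemma toSet_bij (n : ℕ) : Function.Bijective (toSet : Vx n → Finset (Fin n)) := by
  constructor
  · intro ε ε' h
    funext i
    have h1 : i ∈ toSet ε ↔ i ∈ toSet ε' := by rw [h]
    simp only [toSet, Finset.mem_filter, Finset.mem_univ, true_and] at h1
    exact Bool.eq_iff_iff.2 h1
  · intro s
    refine ⟨fun i => decide (i ∈ s), ?_⟩
    ext i
    simp [toSet]

lemma isEven_iff {n : ℕ} (ε : Vx n) : isEven ε = true ↔ Even (toSet ε).card := by
  unfold isEven toSet
  rw [beq_iff_eq, Nat.even_iff]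

/-- The frozen product as a product over the vertices. -/
lemma prod_eq {α : Type} {n : ℕ} (T : α → α) (f : α → ℂ) (h : Fin n → ℕ) (x : α) :
    (∏ ε : Finset (Fin n), (if Even ε.card then f (T^[∑ i ∈ ε, h i] x)
      else starRingEnd ℂ (f (T^[∑ i ∈ ε, h i] x))))
    = ∏ ε : Vx n, sg ε (f (T^[∑ i ∈ Finset.univ.filter (fun i => ε i = true), h i] x)) := by
  rw [← (toSet_bij n).prod_comp]
  refine Finset.prod_congr rfl fun ε _ => ?_
  unfold sg
  by_cases h1 : isEven ε = true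
  · rw [if_pos h1, if_pos ((isEven_iff ε).1 h1)]; rfl
  · rw [if_neg h1, if_neg fun h2 => h1 ((isEven_iff ε).2 h2)]; rfl

lemma pavg_bound {α : Type} {T : Equiv.Perm α} {ℓ : ℕ} {p : Fin ℓ → ℤ[X]} {f : Fin ℓ → α → ℂ}
    {C : ℝ} (hC0 : 0 ≤ C) (hC : ∀ i x, ‖f i x‖ ≤ C) (N : ℕ) (x : α) :
    ‖pavg T p f N x‖ ≤ C ^ ℓ := by
  unfold pavg
  rw [norm_mul, norm_inv, Complex.norm_natCast]
  have h1 : ‖∑ n ∈ Finset.range N, ∏ i : Fin ℓ, f i ((T ^ ((p i).eval (n : ℤ))) x)‖
      ≤ N * C ^ ℓ := by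
    calc _ ≤ ∑ n ∈ Finset.range N, ‖∏ i : Fin ℓ, f i ((T ^ ((p i).eval (n : ℤ))) x)‖ :=
          norm_sum_le _ _
      _ ≤ ∑ _n ∈ Finset.range N, C ^ ℓ := by
          refine Finset.sum_le_sum fun n _ => ?_
          rw [norm_prod]
          calc ∏ i : Fin ℓ, ‖f i ((T ^ ((p i).eval (n : ℤ))) x)‖ ≤ ∏ _i : Fin ℓ, C :=
                Finset.prod_le_prod (fun i _ => norm_nonneg _) fun i _ => hC _ _
            _ = C ^ ℓ := by simp
      _ = N * C ^ ℓ := by simp
  rcases Nat.eq_zero_or_pos N with h | h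
  · subst h
    simp only [Nat.cast_zero, inv_zero, zero_mul]
    positivity
  · have hN : (0 : ℝ) < N := by exact_mod_cast h
    calc (N : ℝ)⁻¹ * _ ≤ (N : ℝ)⁻¹ * (N * C ^ ℓ) := mul_le_mul_of_nonneg_left h1 (by positivity)
      _ = C ^ ℓ := by field_simp

lemma measurable_zpow {α : Type} [MeasurableSpace α] {T : Equiv.Perm α} (hT : Measurable T)
    (hTs : Measurable T.symm) (k : ℤ) : Measurable (T ^ k : Equiv.Perm α) := by
  have h1 : ∀ n : ℕ, Measurable (T ^ n : Equiv.Perm α) := by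
    intro n
    rw [Equiv.Perm.coe_pow]
    exact hT.iterate n
  have h2 : ∀ n : ℕ, Measurable ((T ^ n)⁻¹ : Equiv.Perm α) := by
    intro n
    have : ((T ^ n)⁻¹ : Equiv.Perm α) = (T⁻¹) ^ n := by rw [inv_pow]
    rw [this, Equiv.Perm.coe_pow]
    exact hTs.iterate n
  cases k with
  | ofNat n => simpa using h1 n
  | negSucc n => rw [zpow_negSucc]; exact h2 (n + 1)

lemma measurable_pavg {α : Type} [MeasurableSpace α] {T : Equiv.Perm α} (hT : Measurable T)
    (hTs : Measurable T.symm) {ℓ : ℕ} {p : Fin ℓ → ℤ[X]} {f : Fin ℓ → α → ℂ}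
    (hf : ∀ i, Measurable (f i)) (N : ℕ) : Measurable (pavg T p f N) := by
  unfold pavg
  exact measurable_const.mul (Finset.measurable_sum _ fun n _ =>
    Finset.measurable_prod _ fun i _ => (hf i).comp (measurable_zpow hT hTs _))

end Fin75

open Fin75 in
theorem specFrozen75 (hErg : SpecErg) (hBox : SpecBox) (hDec : SpecErgDec) (hSn : SpecErgSn) :
    SpecFrozen := by
  intro ℓ hℓ p hp1 hp2 α _ _ μ _ T hT hTs hTmp f hf hfC j hlim
  obtain ⟨C₀, hC₀⟩ := hfC
  set C : ℝ := max C₀ 0 with hCdef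
  have hC0 : 0 ≤ C := le_max_right _ _
  have hC : ∀ i x, ‖f i x‖ ≤ C := fun i x => (hC₀ i x).trans (le_max_left _ _)
  have hfB : ∀ i, Bdd (f i) := fun i => ⟨hf i, C, hC i⟩
  let S : α ≃ᵐ α := { toEquiv := T, measurable_toFun := hT, measurable_invFun := hTs }
  let X : Sys α := { μ := μ, prob := inferInstance, S := S, mp := hTmp }
  have hXS : (X.S : α → α) = T := rfl
  have hXμ : X.μ = μ := rfl
  obtain ⟨k, rfl⟩ : ∃ k, ℓ = k + 1 := ⟨ℓ - 1, by omega⟩
  -- the seminorm vanishes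
  have h1 : ∫ x, cp (f j) (k + 1) x ∂(X.cm (k + 1)) = 0 := by
    have h2 := BoxOneM.tendsto_cube hBox X (k + 1) (fun ε y => sg ε (f j y))
      (fun ε => (hfB j).sg ε)
    refine tendsto_nhds_unique h2 ?_
    refine hlim.congr fun H => ?_
    congr 1
    refine Finset.sum_congr rfl fun h _ => ?_
    refine integral_congr_ae (Eventually.of_forall fun x => ?_)
    exact prod_eq (T : α → α) (f j) (fun i => (h i : ℕ)) x
  -- the fibres
  have hle := MeasurableSpace.invariants_le (X.S : α → α)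
  set κ := condExpKernel X.μ (MeasurableSpace.invariants X.S) with hκ
  have h2 := hSn α X k (f j) (hfB j) h1
  have h3 := hDec α X
  have h4 : ∀ᵐ x ∂μ, Tendsto (fun N : ℕ => ∫ y, ‖pavg T p f N y‖ ^ 2 ∂(κ x)) atTop (𝓝 0) := by
    filter_upwards [h2, h3] with x e2 e3
    let Y : Sys α := { μ := κ x, prob := inferInstance, S := S, mp := e3.toMeasurePreserving }
    have e4 := e2 Y rfl rfl
    have hYsn : Y.sn (k + 1) (f j) = 0 := by
      unfold Sys.sn
      rw [e4, norm_zero, Real.zero_rpow (by positivity)]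
    exact hErg α Y e3 (k + 1) hℓ p hp1 hp2 f hfB j hYsn
  -- integrate over the fibres
  have hPm : ∀ N, Measurable fun y => ‖pavg T p f N y‖ ^ 2 := fun N =>
    (measurable_pavg hT hTs hf N).norm.pow_const 2
  have hPb : ∀ N y, ‖(‖pavg T p f N y‖ ^ 2 : ℝ)‖ ≤ (C ^ (k + 1)) ^ 2 := by
    intro N y
    rw [Real.norm_of_nonneg (by positivity)]
    exact pow_le_pow_left₀ (norm_nonneg _) (pavg_bound hC0 hC N y) 2
  have hPi : ∀ N, Integrable (fun y => ‖pavg T p f N y‖ ^ 2) μ := fun N =>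
    Integrable.of_bound (hPm N).aestronglyMeasurable _ (Eventually.of_forall (hPb N))
  have h5 : ∀ N, ∫ x, ‖pavg T p f N x‖ ^ 2 ∂μ
      = ∫ x, (∫ y, ‖pavg T p f N y‖ ^ 2 ∂(κ x)) ∂μ := by
    intro N
    have e1 := condExp_ae_eq_integral_condExpKernel (μ := μ) hle (hPi N)
    rw [← integral_condExp hle (f := fun y => ‖pavg T p f N y‖ ^ 2)]
    exact integral_congr_ae e1
  have h6 : Tendsto (fun N => ∫ x, (∫ y, ‖pavg T p f N y‖ ^ 2 ∂(κ x)) ∂μ) atTop
      (𝓝 (∫ _, (0 : ℝ) ∂μ)) := by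
    refine tendsto_integral_of_dominated_convergence (fun _ => (C ^ (k + 1)) ^ 2)
      (fun N => ?_) (integrable_const _) (fun N => Eventually.of_forall fun x => ?_) h4
    · exact AEStronglyMeasurable.integral_condExpKernel (hPm N).aestronglyMeasurable
    · have := norm_integral_le_of_norm_le_const (μ := κ x) (Eventually.of_forall (hPb N))
      simpa using this
  rw [integral_zero] at h6
  exact h6.congr fun N => (h5 N).symm

end MPd26.HK
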