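import Pool.Agent.Lib.MP_d26cd8_an.Final.Spec
import Pool.Agent.Lib.MP_d26cd8_an.Nil.Spec
import Pool.Agent.Lib.MP_d26cd8_an.HK.BoxOne
import Pool.Agent.Lib.MP_d26cd8_an.HK.Dist

/-!
# MP_d26cd8_an, final assembly: the statement NT of STAGE 1 in terms of the seminorms
-/

set_option autoImplicit false

open MeasureTheory ProbabilityTheory Filter Topology Polynomial
open scoped ComplexConjugate ENNReal

namespace MPd26.HK.LinkM

open MPd26.Nil

section Pow
variable {m : ℕ} {ξ : Mat m} {Fl : Flow (NM m)} (hT : ∀ t y, Fl.T t y = expU (t • ξ) • y)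
include hT

lemma one_apply (y : NM m) : (Fl.sys 1).S y = expU ξ • y := by
  show Fl.T 1 y = _
  rw [hT, one_smul]

lemma iter_apply (n : ℕ) (y : NM m) : (Fl.sys 1).S^[n] y = (expU ξ ^ n) • y := by
  induction n generalizing y with
  | zero => simp
  | succ n ih => rw [Function.iterate_succ_apply, ih, one_apply hT, smul_smul, pow_succ]

lemma zpow_apply (z : ℤ) (y : NM m) :
    ((Fl.sys 1).S.toEquiv ^ z : Equiv.Perm (NM m)) y = (expU ξ ^ z) • y := by
  have h1 : ∀ y : NM m, (Fl.sys 1).S.toEquiv y = expU ξ • y := one_apply hT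
  have h2 : ∀ y : NM m, (Fl.sys 1).S.toEquiv.symm y = (expU ξ)⁻¹ • y := by
    intro y
    rw [Equiv.symm_apply_eq, h1, smul_inv_smul]
  induction z using Int.induction_on generalizing y with
  | zero => simp
  | succ n ih => rw [zpow_add_one, Equiv.Perm.mul_apply, ih, h1, smul_smul, ← zpow_add_one]
  | pred n ih =>
    rw [zpow_sub_one, Equiv.Perm.mul_apply, ih, zpow_sub_one, mul_smul]
    congr 1
    exact h2 y

end Pow

end LinkM

open MPd26.Nil LinkM

theorem specNT_link (hNT : MPd26.Nil.SpecNT) (hCpt : MPd26.Nil.SpecCpt) (hBox : SpecBox)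
    (hGCS : SpecGCS) : MPd26.HK.SpecNT := by
  intro m _ ξ hξ Fl hErg hT ℓ hℓ p hp hpp G hG j hj
  have : CompactSpace (NM m) := hCpt.1 m
  have e1 : (fun N : ℕ => ∫ y, ‖pavg (Fl.sys 1).S.toEquiv p G N y‖ ^ 2 ∂Fl.μ) =
      fun N : ℕ => ∫ y, ‖((N : ℂ))⁻¹ * ∑ n ∈ Finset.range N, ∏ i : Fin ℓ,
        G i ((expU ξ ^ ((p i).eval (n : ℤ))) • y)‖ ^ 2 ∂Fl.μ := by
    funext N
    unfold pavg
    simp only [zpow_apply hT]
  rw [e1]
  refine hNT m ξ hξ Fl.μ inferInstance (fun t => ?_) (fun B hB hinv => ?_) ℓ hℓ p hp hpp G hG j ?_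
  · have h := Fl.mp t
    have e : Fl.T t = fun y => expU (t • ξ) • y := funext fun y => hT t y
    rwa [e] at h
  · refine hErg B hB fun t => ?_
    have e : Fl.T t = fun y => expU (t • ξ) • y := funext fun y => hT t y
    rw [e, hinv t]
  · intro H hH
    obtain ⟨k, rfl⟩ : ∃ k, ℓ = k + 1 := ⟨ℓ - 1, by omega⟩
    have hHb : ∀ ε, Bdd (H ε) := fun ε => ⟨(hH ε).measurable, by
      obtain ⟨C, hC⟩ := (isCompact_range (hH ε)).isBounded.exists_norm_le
      exact ⟨C, fun x => hC _ ⟨x, rfl⟩⟩⟩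
    set f : Vx (k + 1) → NM m → ℂ := fun ε => if ε = v0 then G j else H ε with hf
    have hfb : ∀ ε, Bdd (f ε) := by
      intro ε
      simp only [hf]
      split_ifs
      · exact hG j
      · exact hHb ε
    have h1 := BoxOneM.tendsto_cube hBox (Fl.sys 1) (k + 1) f hfb
    have h2 : ∫ x, ∏ ε, f ε (x ε) ∂((Fl.sys 1).cm (k + 1)) = 0 := by
      have h3 := hGCS (NM m) (Fl.sys 1) k f hfb
      have h4 : ∏ ε, (Fl.sys 1).sn (k + 1) (f ε) = 0 :=
        Finset.prod_eq_zero (Finset.mem_univ v0) (by simpa [hf] using hj)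
      rw [h4] at h3
      exact norm_le_zero_iff.1 h3
    rw [h2] at h1
    refine h1.congr fun N => ?_
    congr 1
    refine Finset.sum_congr rfl fun h _ => ?_
    refine integral_congr_ae (Eventually.of_forall fun y => ?_)
    show ∏ ε, f ε ((Fl.sys 1).S^[∑ i ∈ Finset.univ.filter (fun i => ε i = true), (h i : ℕ)] y) = _
    rw [← Finset.mul_prod_erase Finset.univ _ (Finset.mem_univ (v0 : Vx (k + 1))),
      Finset.filter_ne']
    congr 1
    · simp [hf, v0]
    · refine Finset.prod_congr rfl fun ε hε => ?_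
      have : ε ≠ v0 := Finset.ne_of_mem_erase hε
      simp only [hf, if_neg this, iter_apply hT]

theorem specSBNM (hCpt : MPd26.Nil.SpecCpt) : SpecSBNM := by
  intro m
  have : CompactSpace (NM m) := hCpt.1 m
  have : PolishSpace (NM m) := by
    let _ := TopologicalSpace.metrizableSpaceMetric (NM m)
    infer_instance
  infer_instance

end MPd26.HK
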