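import Pool.Agent.Lib.MP_d26cd8_an.Final.Spec
import Pool.Agent.Lib.MP_d26cd8_an.helper29.ProdNil
import Pool.Agent.Lib.MP_d26cd8_an.HK.A_All
import Pool.Agent.Lib.MP_d26cd8_an.HK.P3_All
import Pool.Agent.Lib.MP_d26cd8_an.HK.DMain
import Pool.Agent.Lib.MP_d26cd8_an.HK.Nil
import Pool.Agent.Lib.MP_d26cd8_an.HK.Susp
import Pool.Agent.Lib.MP_d26cd8_an.HK.Gen
import Pool.Agent.Lib.MP_d26cd8_an.HK.Ind
import Pool.Agent.Lib.MP_d26cd8_an.HK.FlowCont
import Pool.Agent.Lib.MP_d26cd8_an.HK.BoxFlow
import Pool.Agent.Lib.MP_d26cd8_an.HK.Inv99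
import Pool.Agent.Lib.MP_d26cd8_an.HK.Small
import Pool.Agent.Lib.MP_d26cd8_an.HK.CocDer
import Pool.Agent.Lib.MP_d26cd8_an.HK.CocTriv
import Pool.Agent.Lib.MP_d26cd8_an.HK.Fix
import Pool.Agent.Lib.MP_d26cd8_an.HK.Sep
import Pool.Agent.Lib.MP_d26cd8_an.HK.PhDer
import Pool.Agent.Lib.MP_d26cd8_an.HK.ProdNil2
import Pool.Agent.Lib.MP_d26cd8_an.HK.B_Final
import Pool.Agent.Lib.MP_d26cd8_an.HK.B_Lift
import Pool.Agent.Lib.MP_d26cd8_an.HK.B_ActCont
import Pool.Agent.Lib.MP_d26cd8_an.HK.B_CCocFac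
import Pool.Agent.Lib.MP_d26cd8_an.HK.B_Chart
import Pool.Agent.Lib.MP_d26cd8_an.HK.B_Embed
import Pool.Agent.Lib.MP_d26cd8_an.HK.B_Rho
import Pool.Agent.Lib.MP_d26cd8_an.HK.B_YSide
import Pool.Agent.Lib.MP_d26cd8_an.D5.Core
import Pool.Agent.Lib.MP_d26cd8_an.D5.NilX
import Pool.Agent.Lib.MP_d26cd8_an.Nil.NT_OrthG
import Pool.Agent.Lib.MP_d26cd8_an.Final.Erg
import Pool.Agent.Lib.MP_d26cd8_an.Final.Link
import Pool.Agent.Lib.MP_d26cd8_an.Final.Fin75
import Pool.Agent.Lib.MP_d26cd8_an.Nil.NT_Split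
import Pool.Agent.Lib.MP_d26cd8_an.Nil.NT_OrthS
import Pool.Agent.Lib.MP_d26cd8_an.Nil.NT_Res

section
/-! # Finitely many nil-maps factor through one -/
set_option autoImplicit false

namespace MPd26.HK

theorem specProdNil : SpecProdNil := fun α _ Fl r m π h => ProdNilM.prodFin α Fl r m π h

end MPd26.HK
end

section
/-!
# Assembly: the frozen statement from the modules still in progress
-/
set_option autoImplicit false

namespace MPd26.HK.Fin

theorem phases : SpecPhases := P3.All.phases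

theorem sep : SpecSep := specSep (specPhDer A.a9) A.sideS

theorem sep0 : SpecSep0 := specSep0 sep

theorem inv99 : SpecInv99 := specInv99 A.a9 specFix sep A.sideS A.sym

theorem cocDer : SpecCocDer := specCocDer specCocTriv A.sym specIntertwine

theorem small : SpecSmall := specSmall specCocTriv cocDer specFix sep0 A.sideS A.sym

theorem flowSide : SpecFlowSide := specFlowSide A.aut

theorem lift : SpecLift := specLift cocDer small sep0 specActCont specVol

theorem nilPhase : SpecNilPhase :=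
  specNilPhase MPd26.Nil.All.class_ MPd26.Nil.All.mal specChart
    (specYSide MPd26.Nil.All.side flowSide A.sideS) (specCCocFac A.fac A.sym)
    (specRho (specPhDer A.a9) sep flowSide specFlowCont) lift specEmbed A.fac
    flowSide specFlowCont specVol specCore specExt specNilX MPd26.Nil.All.cpt.1

theorem nil : SpecNil :=
  specNil specProdNilPair phases inv99 nilPhase A.zzero MPd26.Nil.All.cpt.1

theorem d : SpecD :=
  specD specSusp specGen (specInd A.aut) flowSide nil
    (specBoxFlow A.boxOne specFlowCont) A.zchar A.zmono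

theorem erg (hNT : MPd26.Nil.SpecNT) : SpecErg :=
  specErg specSusp d (specNT_link hNT MPd26.Nil.All.cpt A.box A.gcs)
    (specSBNM MPd26.Nil.All.cpt) specProdNil A.fac A.n A.box A.mono A.gcs A.proj

/-- The frozen statement from NT. -/
theorem frozen_of (hNT : MPd26.Nil.SpecNT) : SpecFrozen :=
  specFrozen75 (erg hNT) A.box A.ergDec A.ergSn

end MPd26.HK.Fin
end

section
/-!
# MP_d26cd8_an: the frozen statement, no hypotheses
-/
set_option autoImplicit false

namespace MPd26.HK.Fin

open MPd26.Nil MPd26.Nil.All in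
/-- NT without hypotheses -/
theorem nt75 : MPd26.Nil.SpecNT :=
  specNTF
    (specNT1 (specSplit nilExp rat ratNil)
      (specNT2 nilExp ratNil haar specHaarS (specOrthS nilExp ratNil cpt specOrthG specHaarS)
        specRes specPolQ nt0) nt0) class_ e

/-- Leibman's conjecture: the frozen statement -/
theorem frozen : SpecFrozen := frozen_of nt75

end MPd26.HK.Fin
end
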