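import Pool.Agent.Lib.MP_d26cd8_an.HK.NilSpec
import Pool.Agent.Lib.MP_d26cd8_an.HK.Spec0

/-!
# MP_d26cd8_an, final assembly: specifications (helper43)
-/

set_option autoImplicit false

open MeasureTheory ProbabilityTheory Filter Topology Polynomial
open scoped ComplexConjugate ENNReal

namespace MPd26.HK

open MPd26.Nil

/-- The polynomial averages `(1/N) ∑_{n<N} ∏_i g_i (T^{p_i(n)} x)`. -/
noncomputable def pavg {α : Type} (T : Equiv.Perm α) {ℓ : ℕ} (p : Fin ℓ → ℤ[X])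
    (g : Fin ℓ → α → ℂ) (N : ℕ) (x : α) : ℂ :=
  ((N : ℂ))⁻¹ * ∑ n ∈ Finset.range N, ∏ i : Fin ℓ, g i ((T ^ ((p i).eval (n : ℤ))) x)

instance instSBUI : StandardBorelSpace UI := measurableSet_Ico.standardBorel

/-- STAGE 1: the theorem for the time-one map of an ergodic unipotent flow on `NM m` (with an
arbitrary invariant ergodic measure). -/
def SpecNT : Prop :=
  ∀ (m : ℕ) [StandardBorelSpace (NM m)] (ξ : Mat m), IsSU ξ → ∀ Fl : Flow (NM m), Fl.Erg →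
    (∀ t y, Fl.T t y = expU (t • ξ) • y) →
    ∀ ℓ : ℕ, 2 ≤ ℓ → ∀ p : Fin ℓ → ℤ[X], (∀ i, 0 < (p i).natDegree) →
      (∀ i j, i ≠ j → 0 < (p i - p j).natDegree) →
    ∀ G : Fin ℓ → NM m → ℂ, (∀ i, Bdd (G i)) → ∀ j, (Fl.sys 1).sn ℓ (G j) = 0 →
      Tendsto (fun N : ℕ => ∫ y, ‖pavg (Fl.sys 1).S.toEquiv p G N y‖ ^ 2 ∂Fl.μ) atTop (𝓝 0)

/-- `NM m` is a standard Borel space. -/
def SpecSBNM : Prop := ∀ m : ℕ, StandardBorelSpace (NM m)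

/-- Finitely many nil-maps factor through one nil-map (block diagonal matrices). -/
def SpecProdNil : Prop :=
  ∀ (α : Type) [MeasurableSpace α] (Fl : Flow α) (r : ℕ) (m : Fin r → ℕ)
    (π : ∀ i : Fin r, α → NM (m i)), (∀ i, Fl.NilMap (m i) (π i)) →
    ∃ (M : ℕ) (Q : α → NM M) (q : ∀ i : Fin r, NM M → NM (m i)),
      Fl.NilMap M Q ∧ ∀ i, Continuous (q i) ∧ ∀ x, q i (Q x) = π i x

/-- The theorem for ergodic systems. -/
def SpecErg : Prop :=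
  ∀ (α : Type) [MeasurableSpace α] [StandardBorelSpace α] (X : Sys α), X.Erg →
    ∀ ℓ : ℕ, 2 ≤ ℓ → ∀ p : Fin ℓ → ℤ[X], (∀ i, 0 < (p i).natDegree) →
      (∀ i j, i ≠ j → 0 < (p i - p j).natDegree) →
    ∀ f : Fin ℓ → α → ℂ, (∀ i, Bdd (f i)) → ∀ j, X.sn ℓ (f j) = 0 →
      Tendsto (fun N : ℕ => ∫ x, ‖pavg X.S.toEquiv p f N x‖ ^ 2 ∂X.μ) atTop (𝓝 0)

/-- The frozen statement S06251. -/
def SpecFrozen : Prop :=
    ∀ (ℓ : ℕ), 2 ≤ ℓ →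
    ∀ (p : Fin ℓ → Polynomial ℤ),
      (∀ i, 0 < (p i).natDegree) →
      (∀ i j, i ≠ j → 0 < (p i - p j).natDegree) →
    ∀ (α : Type) [MeasurableSpace α] [StandardBorelSpace α]
      (μ : Measure α) [IsProbabilityMeasure μ] (T : Equiv.Perm α),
      Measurable (⇑T) → Measurable (⇑T.symm) → MeasurePreserving (⇑T) μ μ →
    ∀ (f : Fin ℓ → α → ℂ), (∀ i, Measurable (f i)) →
      (∃ C : ℝ, ∀ i x, ‖f i x‖ ≤ C) →
    ∀ j : Fin ℓ,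
      Tendsto (fun H : ℕ => ((H : ℂ) ^ ℓ)⁻¹ *
          ∑ h : Fin ℓ → Fin H, ∫ x, ∏ ε : Finset (Fin ℓ),
            (if Even ε.card then f j ((⇑T)^[∑ i ∈ ε, (h i : ℕ)] x)
             else starRingEnd ℂ (f j ((⇑T)^[∑ i ∈ ε, (h i : ℕ)] x))) ∂μ)
        atTop (𝓝 0) →
      Tendsto (fun N : ℕ => ∫ x, ‖((N : ℂ))⁻¹ *
          ∑ n ∈ Finset.range N, ∏ i : Fin ℓ,
            f i ((T ^ ((p i).eval (n : ℤ))) x)‖ ^ 2 ∂μ)
        atTop (𝓝 0)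

end MPd26.HK
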